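import Pool.Agent.H7.HD.Tools2

/-!
# MP_e37c09_lc, module XI: second step of the covering argument
-/

open Ordinal Cardinal Order Set
open scoped ZFSet

universe u

namespace Pool.Agent.H87.HD.XI

open _root_.HD

/-- a strictly increasing cofinal map preserves the cofinality -/
theorem cof_eq {x y : Ordinal.{u}} (F : Ordinal.{u} → Ordinal.{u})
    (h1 : ∀ a b, a < b → b < x → F a < F b) (h2 : ∀ a < x, F a < y)
    (h3 : ∀ z < y, ∃ a < x, z < F a) : x.cof = y.cof := by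
  let G : Iio x → Iio y := fun a => ⟨F a.1, h2 a.1 a.2⟩
  have hG : StrictMono G := fun a b hab => h1 a.1 b.1 hab b.2
  have hc : IsCofinal (range G) := fun z => by
    obtain ⟨a, ha, h⟩ := h3 z.1 z.2
    exact ⟨G ⟨a, ha⟩, ⟨_, rfl⟩, h.le⟩
  have h := Order.cof_congr_of_strictMono hG hc
  rw [Ordinal.cof_Iio, Ordinal.cof_Iio, ← Ordinal.lift_cof, ← Ordinal.lift_cof] at h
  exact Cardinal.lift_injective h

/-- `Jo j` is strictly increasing -/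
theorem J_lt {δ η θ : Ordinal.{u}} {j : ZFSet.{u} → ZFSet.{u}} (h : Emb δ η θ j)
    {a b : Ordinal.{u}} (hab : a < b) (hb : b < η) : Jo j a < Jo j b :=
  (h.lt_iff (hab.trans hb) hb).2 hab

/-- cofinalities are preserved -/
theorem Cf_J (hLA : T_LA.{u}) {δ η θ : Ordinal.{u}} {j : ZFSet.{u} → ZFSet.{u}}
    (h : Emb δ η θ j) {μ x : Ordinal.{u}} (hμ : μ < η) (hx : x < η) :
    Cf μ x ↔ Cf (Jo j μ) (Jo j x) := by
  have hmem : ∀ z ∈ [μ.toZFSet, x.toZFSet], z ∈ V_ η := by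
    simp only [List.mem_cons, List.not_mem_nil, or_false, forall_eq_or_imp, forall_eq]
    exact ⟨Gd.ord.2 hμ, Gd.ord.2 hx⟩
  have t : (μ.toZFSet.IsOrdinal ∧ x.toZFSet.IsOrdinal ∧ Cf μ.toZFSet.rank x.toZFSet.rank) ↔
      ((j μ.toZFSet).IsOrdinal ∧ (j x.toZFSet).IsOrdinal ∧
        Cf (j μ.toZFSet).rank (j x.toZFSet).rank) := h.trl hLA [μ.toZFSet, x.toZFSet] hmem
  rw [h.ord hμ, h.ord hx] at t
  simpa only [ZFSet.isOrdinal_toZFSet, rank_toZFSet, true_and] using t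

/-- discontinuity of `j` at ordinals of large cofinality -/
theorem supJ (hLA : T_LA.{u}) {δ η θ : Ordinal.{u}} {j : ZFSet.{u} → ZFSet.{u}}
    (h : Emb δ η θ j) {α : Ordinal.{u}} (hα : α < η) (hlim : IsSuccLimit α)
    (hc : δ ≤ α.cof.ord) :
    ∃ s < Jo j α, (∀ x < α, Jo j x < s) ∧ ∀ y < s, ∃ x < α, y < Jo j x := by
  have hmem : Jo j α ∈ {s | ∀ x < α, Jo j x < s} := fun x hx => J_lt h hx hα
  have h0 : ∀ x < α, Jo j x < sInf {s | ∀ x < α, Jo j x < s} := csInf_mem ⟨_, hmem⟩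
  have h1 : ∀ y < sInf {s | ∀ x < α, Jo j x < s}, ∃ x < α, y < Jo j x := by
    intro y hy
    have h2 : y ∉ {s | ∀ x < α, Jo j x < s} := notMem_of_lt_csInf' hy
    simp only [mem_ofPred_eq, not_forall, not_lt] at h2
    obtain ⟨x, hx, h3⟩ := h2
    exact ⟨succ x, hlim.succ_lt hx, lt_of_le_of_lt h3 (J_lt h (lt_succ x)
      ((hlim.succ_lt hx).trans hα))⟩
  refine ⟨_, ?_, h0, h1⟩
  refine lt_of_le_of_ne (csInf_le' hmem) fun he => ?_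
  rw [he] at h1
  have h2 := cof_eq (Jo j) (fun a b hab hb => J_lt h hab (hb.trans hα)) hmem h1
  have h3 : α.cof.ord ≤ α := Ordinal.ord_cof_le α
  have h4 : Cf (Jo j α.cof.ord) (Jo j α) :=
    (Cf_J hLA h (h3.trans_lt hα) hα).1 rfl
  unfold Cf at h4
  rw [← h2] at h4
  have h5 : Jo j δ ≤ Jo j α.cof.ord := (h.le_iff h.dlt (h3.trans_lt hα)).2 hc
  rw [← h4] at h5
  exact absurd (h5.trans (h3.trans hα.le)) (not_le.2 h.Jo_crit)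

/-! ## Formulas -/

/-- positivity, for sets -/
def PB (μ ρ f i : ZFSet.{u}) : Prop :=
  μ.IsOrdinal ∧ ρ.IsOrdinal ∧ Pos μ.rank ρ.rank {b | ZFSet.pair b.toZFSet i ∈ f}

theorem loc_pb (hLB : T_LB.{u}) (a b c d : ℕ) :
    Loc.{u} fun v => PB (v a) (v b) (v c) (v d) :=
  hLB.ren fun n => if n = 0 then a else if n = 1 then b else if n = 2 then c else d

theorem pb_iff {μ ρ i : Ordinal.{u}} {f : ZFSet.{u}} :
    PB μ.toZFSet ρ.toZFSet f i.toZFSet ↔ Pos μ ρ (fib f i) := by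
  unfold PB fib
  simp only [ZFSet.isOrdinal_toZFSet, rank_toZFSet, true_and]

/-- smallness -/
def Sm (ρ δ p μ f γ : ZFSet.{u}) : Prop :=
  ∃ τ ∈ δ, ∃ h ⊆ p, ∀ i ∈ γ, PB μ ρ f i →
    ∃ a ∈ τ, ZFSet.pair a i ∈ h ∧ ∀ i' ∈ γ, ZFSet.pair a i' ∈ h → i' = i

theorem loc_sm (hLB : T_LB.{u}) (a b c d e g : ℕ) :
    Loc.{u} fun v => Sm (v a) (v b) (v c) (v d) (v e) (v g) :=
  Loc.exMem (R := fun τ v => ∃ h ⊆ v c, ∀ i ∈ v g, PB (v d) (v a) (v e) i →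
      ∃ a ∈ τ, ZFSet.pair a i ∈ h ∧ ∀ i' ∈ v g, ZFSet.pair a i' ∈ h → i' = i) b
    (Loc.exSub (R := fun h v => ∀ i ∈ v (g + 1), PB (v (d + 1)) (v (a + 1)) (v (e + 1)) i →
      ∃ a ∈ v 0, ZFSet.pair a i ∈ h ∧ ∀ i' ∈ v (g + 1), ZFSet.pair a i' ∈ h → i' = i) (c + 1)
      (Loc.allMem (R := fun i v => PB (v (d + 2)) (v (a + 2)) (v (e + 2)) i →
        ∃ a ∈ v 1, ZFSet.pair a i ∈ v 0 ∧ ∀ i' ∈ v (g + 2), ZFSet.pair a i' ∈ v 0 → i' = i)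
          (g + 2)
        ((loc_pb hLB (d + 3) (a + 3) (e + 3) 0).imp
          (Loc.exMem (R := fun a v => ZFSet.pair a (v 0) ∈ v 1 ∧
            ∀ i' ∈ v (g + 3), ZFSet.pair a i' ∈ v 1 → i' = v 0) 2
            ((loc_pmem 0 1 2).and
              (Loc.allMem (R := fun i' v => ZFSet.pair (v 0) i' ∈ v 2 → i' = v 1) (g + 4)
                ((loc_pmem 1 0 3).imp (Loc.eq 0 2))))))))

/-- unboundedness -/
def Un (β μ ρ f : ZFSet.{u}) : Prop := ∀ z ∈ β, ∃ i ∈ β, z ∈ i ∧ PB μ ρ f i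

theorem loc_un (hLB : T_LB.{u}) (a b c d : ℕ) :
    Loc.{u} fun v => Un (v a) (v b) (v c) (v d) :=
  Loc.allMem (R := fun z v => ∃ i ∈ v a, z ∈ i ∧ PB (v b) (v c) (v d) i) a
    (Loc.exMem (R := fun i v => v 0 ∈ i ∧ PB (v (b + 1)) (v (c + 1)) (v (d + 1)) i) (a + 1)
      ((Loc.mem 1 0).and (loc_pb hLB (b + 2) (c + 2) (d + 2) 0)))

/-- the main formula -/
def Q (v : ℕ → ZFSet.{u}) : Prop :=
  ∀ β ∈ v 0, (∃ ρ ∈ v 1, Sm ρ (v 2) (v 3) (v 4) (v 5) (v 7) ∧ Un β (v 4) ρ (v 5)) →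
    ∃ ρ ∈ v 1, Un β (v 4) ρ (v 5) ∧ ∀ i ∈ β, PB (v 4) ρ (v 5) i → i ∈ v 6

theorem loc_Q (hLB : T_LB.{u}) : Loc.{u} Q :=
  Loc.allMem (R := fun β v => (∃ ρ ∈ v 1, Sm ρ (v 2) (v 3) (v 4) (v 5) (v 7) ∧
      Un β (v 4) ρ (v 5)) →
    ∃ ρ ∈ v 1, Un β (v 4) ρ (v 5) ∧ ∀ i ∈ β, PB (v 4) ρ (v 5) i → i ∈ v 6) 0
    (Loc.imp
      (Loc.exMem (R := fun ρ v => Sm ρ (v 3) (v 4) (v 5) (v 6) (v 8) ∧
        Un (v 0) (v 5) ρ (v 6)) 2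
        ((loc_sm hLB 0 4 5 6 7 9).and (loc_un hLB 1 6 0 7)))
      (Loc.exMem (R := fun ρ v => Un (v 0) (v 5) ρ (v 6) ∧
          ∀ i ∈ v 0, PB (v 5) ρ (v 6) i → i ∈ v 7) 2
        ((loc_un hLB 1 6 0 7).and
          (Loc.allMem (R := fun i v => PB (v 6) (v 0) (v 7) i → i ∈ v 8) 1
            ((loc_pb hLB 7 1 8 0).imp (Loc.mem 0 9))))))

/-- closedness -/
def Cl (v : ℕ → ZFSet.{u}) : Prop :=
  ∀ x ∈ v 0, (∃ y ∈ x, y = y) → (∀ y ∈ x, ∃ z ∈ x, y ∈ z ∧ z ∈ v 1) → x ∈ v 1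

theorem loc_Cl : Loc.{u} Cl :=
  Loc.allMem (R := fun x v => (∃ y ∈ x, y = y) → (∀ y ∈ x, ∃ z ∈ x, y ∈ z ∧ z ∈ v 1) →
      x ∈ v 1) 0
    ((Loc.exMem (R := fun y _ => y = y) 0 (Loc.eq 0 0)).imp
      ((Loc.allMem (R := fun y v => ∃ z ∈ v 0, y ∈ z ∧ z ∈ v 2) 0
        (Loc.exMem (R := fun z v => v 0 ∈ z ∧ z ∈ v 3) 1
          ((Loc.mem 1 0).and (Loc.mem 0 4)))).imp (Loc.mem 0 2)))

/-- an element in an interval -/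
def In (v : ℕ → ZFSet.{u}) : Prop := ∃ y ∈ v 0, ¬ y ∈ v 1 ∧ y ∈ v 2

theorem loc_In : Loc.{u} In :=
  Loc.exMem (R := fun y v => ¬ y ∈ v 1 ∧ y ∈ v 2) 0 ((Loc.mem 0 2).not.and (Loc.mem 0 3))

/-- the sets which are used to build `S` are small -/
theorem sm_cov {ρ δ γ μ : Ordinal.{u}} {p f : ZFSet.{u}}
    (h : Sm ρ.toZFSet δ.toZFSet p μ.toZFSet f γ.toZFSet) {X : Set Ordinal.{u}}
    (hX : ∀ i ∈ X, i < γ ∧ Pos μ ρ (fib f i)) :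
    ∃ τ < δ, #X ≤ Cardinal.lift.{u + 1} τ.card := by
  classical
  obtain ⟨_, hτ, h, -, hh⟩ := h
  obtain ⟨τ, hτδ, rfl⟩ := mem_toZFSet_iff.1 hτ
  refine ⟨τ, hτδ, cov_iff.1 ?_⟩
  refine ⟨fun a => if hx : ∃ i : Ordinal.{u}, i < γ ∧ ZFSet.pair a.toZFSet i.toZFSet ∈ h then
    Classical.choose hx else 0, fun x hx => ?_⟩
  obtain ⟨h1, h2⟩ := hX x hx
  obtain ⟨_, h3, h4, h5⟩ := hh x.toZFSet (toZFSet_mem_toZFSet_iff.2 h1) (pb_iff.2 h2)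
  obtain ⟨a, ha, rfl⟩ := mem_toZFSet_iff.1 h3
  refine ⟨a, ha, ?_⟩
  have hex : ∃ i : Ordinal.{u}, i < γ ∧ ZFSet.pair a.toZFSet i.toZFSet ∈ h := ⟨x, h1, h4⟩
  show (if hx : ∃ i : Ordinal.{u}, i < γ ∧ ZFSet.pair a.toZFSet i.toZFSet ∈ h then
    Classical.choose hx else 0) = x
  rw [dif_pos hex]
  obtain ⟨h6, h7⟩ := Classical.choose_spec hex
  exact toZFSet_injective (h5 _ (toZFSet_mem_toZFSet_iff.2 h6) h7)

theorem X (hLA : T_LA.{u}) (hLB : T_LB.{u}) (hVG : T_VG.{u}) (hDA : T_DA.{u})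
    (hXF : T_XF.{u}) : T_XI.{u} := by
  intro δ η θ j M K γ f hs α hlim hcof hαγ
  obtain ⟨B, hB, hBα, hBc⟩ := hVG α hlim
  have hj := hs.emb
  have hαη : α < η := lt_of_le_of_lt hαγ hs.γη
  have hMη : M.ord < η := hs.mlt.trans hj.dlt
  set p : ZFSet.{u} := ZFSet.prod δ.toZFSet γ.toZFSet with hp
  have hpη : p ∈ V_ η := hj.gd.prod (Gd.ord.2 hj.dlt) (Gd.ord.2 hs.γη)
  let SM : Ordinal.{u} → Prop := fun ρ => Sm ρ.toZFSet δ.toZFSet p M.ord.toZFSet f γ.toZFSet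
  let UN : Ordinal.{u} → Ordinal.{u} → Prop := fun ρ β => Un β.toZFSet M.ord.toZFSet ρ.toZFSet f
  have hch : ∀ β, ∃ ρ, (∃ ρ' < K.ord, SM ρ' ∧ UN ρ' β) → (ρ < K.ord ∧ SM ρ ∧ UN ρ β) := by
    intro β
    by_cases h : ∃ ρ' < K.ord, SM ρ' ∧ UN ρ' β
    · obtain ⟨ρ, h⟩ := h
      exact ⟨ρ, fun _ => h⟩
    · exact ⟨0, fun h' => absurd h' h⟩
  choose r hr using hch
  let T : Ordinal.{u} → Set Ordinal.{u} := fun β =>
    {i | (∃ ρ' < K.ord, SM ρ' ∧ UN ρ' β) ∧ i < β ∧ Pos M.ord (r β) (fib f i)}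
  let S : Set Ordinal.{u} := ⋃ β ∈ B, T β
  have hSα : S ⊆ Iio α := by
    intro i hi
    simp only [S, mem_iUnion] at hi
    obtain ⟨β, hβ, hi⟩ := hi
    exact hi.2.1.trans (hBα β hβ)
  have hℵ : ℵ₀ ≤ α.cof := Ordinal.aleph0_le_cof_iff.2 (Ordinal.one_lt_cof_iff.2 hlim)
  have hTc : ∀ β ∈ B, #(T β) ≤ Cardinal.lift.{u + 1} α.cof := by
    intro β hβ
    by_cases h : ∃ ρ' < K.ord, SM ρ' ∧ UN ρ' β
    · obtain ⟨τ, h1, h2⟩ := sm_cov (X := T β) (hr β h).2.1 fun i hi =>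
        ⟨hi.2.1.trans ((hBα β hβ).trans_le hαγ), hi.2.2⟩
      refine h2.trans ?_
      rw [Cardinal.lift_le]
      exact (Cardinal.lt_ord.1 (h1.trans_le hcof)).le
    · have : T β = ∅ := by
        ext i
        simp only [T, mem_ofPred_eq, mem_empty_iff_false, iff_false]
        exact fun h' => h h'.1
      rw [this]
      simp
  have hBc' : #B ≤ Cardinal.lift.{u + 1} α.cof := by
    have := cov_iff.1 hBc
    rwa [Cardinal.card_ord] at this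
  have hSc : #S ≤ Cardinal.lift.{u + 1} α.cof := by
    refine (Cardinal.mk_biUnion_le T B).trans ?_
    calc #B * ⨆ x : B, #(T x.1) ≤ Cardinal.lift.{u + 1} α.cof * Cardinal.lift.{u + 1} α.cof := by
          refine mul_le_mul' hBc' ?_
          exact ciSup_le' fun x => hTc x.1 x.2
      _ = Cardinal.lift.{u + 1} α.cof := by
          rw [Cardinal.mul_eq_self]
          rwa [Cardinal.aleph0_le_lift]
  have hosη : ∀ X : Set Ordinal.{u}, os α X ∈ V_ η := fun X =>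
    mem_V_of_sub (y := α.toZFSet) (fun z hz => (ZFSet.mem_sep.1 hz).1) (Gd.ord.2 hαη)
  -- the transfer of `Q`
  have hQ : Q (sv [os α B, K.ord.toZFSet, δ.toZFSet, p, M.ord.toZFSet, f, os α S, γ.toZFSet]) := by
    show ∀ β ∈ os α B, (∃ ρ ∈ K.ord.toZFSet, Sm ρ δ.toZFSet p M.ord.toZFSet f γ.toZFSet ∧
      Un β M.ord.toZFSet ρ f) → ∃ ρ ∈ K.ord.toZFSet, Un β M.ord.toZFSet ρ f ∧
        ∀ i ∈ β, PB M.ord.toZFSet ρ f i → i ∈ os α S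
    intro β hβ hex
    obtain ⟨b, hb1, hb2, rfl⟩ := mem_os.1 hβ
    obtain ⟨_, h1, h2, h3⟩ := hex
    obtain ⟨ρ, hρ, rfl⟩ := mem_toZFSet_iff.1 h1
    have hex' : ∃ ρ' < K.ord, SM ρ' ∧ UN ρ' b := ⟨ρ, hρ, h2, h3⟩
    obtain ⟨h4, h5, h6⟩ := hr b hex'
    refine ⟨(r b).toZFSet, toZFSet_mem_toZFSet_iff.2 h4, h6, fun i hi hp => ?_⟩
    obtain ⟨i, hi', rfl⟩ := mem_toZFSet_iff.1 hi
    refine ord_mem_os.2 ⟨hi'.trans hb1, ?_⟩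
    simp only [S, mem_iUnion]
    exact ⟨b, hb2, hex', hi', pb_iff.1 hp⟩
  have hmem : ∀ z ∈ [os α B, K.ord.toZFSet, δ.toZFSet, p, M.ord.toZFSet, f, os α S, γ.toZFSet],
      z ∈ V_ η := by
    simp only [List.mem_cons, List.not_mem_nil, or_false, forall_eq_or_imp, forall_eq]
    exact ⟨hosη B, Gd.ord.2 hs.kη, Gd.ord.2 hj.dlt, hpη, Gd.ord.2 hMη, hs.fη, hosη S,
      Gd.ord.2 hs.γη⟩
  have hQ' : ∀ β ∈ j (os α B), (∃ ρ ∈ j K.ord.toZFSet, Sm ρ (j δ.toZFSet) (j p)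
      (j M.ord.toZFSet) (j f) (j γ.toZFSet) ∧ Un β (j M.ord.toZFSet) ρ (j f)) →
      ∃ ρ ∈ j K.ord.toZFSet, Un β (j M.ord.toZFSet) ρ (j f) ∧
        ∀ i ∈ β, PB (j M.ord.toZFSet) ρ (j f) i → i ∈ j (os α S) :=
    (hj.trl (loc_Q hLB) _ hmem).1 hQ
  have hjp : j p = ZFSet.prod (Jo j δ).toZFSet (Jo j γ).toZFSet := by
    rw [hp, hj.prod (Gd.ord.2 hj.dlt) (Gd.ord.2 hs.γη), hj.ord hj.dlt, hj.ord hs.γη]
  rw [hjp, hj.ord hs.kη, hj.ord hj.dlt, hj.ord hs.γη, hj.fix _ hs.mlt] at hQ'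
  -- the points `α*` and `ρ*`
  obtain ⟨s, hs1, hs2, hs3⟩ := supJ hLA hj hαη hlim hcof
  have hKlim : IsSuccLimit K.ord := Cardinal.isSuccLimit_ord hs.kreg.1
  obtain ⟨ρ, hρ1, hρ2, hρ3⟩ := supJ hLA hj hs.kη hKlim (by
    rw [hs.kreg.cof_ord]; exact hs.dk.le)
  have hXF' := hXF δ η θ j M K γ f hs ρ hρ2 hρ3
  -- `α*` is in `j B`
  have hcl : Cl (sv [α.toZFSet, os α B]) := by
    show ∀ x ∈ α.toZFSet, (∃ y ∈ x, y = y) → (∀ y ∈ x, ∃ z ∈ x, y ∈ z ∧ z ∈ os α B) →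
      x ∈ os α B
    intro x hx hex hal
    obtain ⟨a, ha, rfl⟩ := mem_toZFSet_iff.1 hx
    refine ord_mem_os.2 ⟨ha, hB.cls a ha ?_ ?_⟩
    · obtain ⟨_, h1, -⟩ := hex
      obtain ⟨b, hb, rfl⟩ := mem_toZFSet_iff.1 h1
      exact lt_of_le_of_lt bot_le hb
    · intro y hy
      obtain ⟨z, h1, h2, h3⟩ := hal y.toZFSet (toZFSet_mem_toZFSet_iff.2 hy)
      obtain ⟨z, h4, rfl⟩ := mem_toZFSet_iff.1 h1
      exact ⟨z, h4, toZFSet_mem_toZFSet_iff.1 h2, (ord_mem_os.1 h3).2⟩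
  have hmem2 : ∀ z ∈ [α.toZFSet, os α B], z ∈ V_ η := by
    simp only [List.mem_cons, List.not_mem_nil, or_false, forall_eq_or_imp, forall_eq]
    exact ⟨Gd.ord.2 hαη, hosη B⟩
  have hcl' : ∀ x ∈ j α.toZFSet, (∃ y ∈ x, y = y) →
      (∀ y ∈ x, ∃ z ∈ x, y ∈ z ∧ z ∈ j (os α B)) → x ∈ j (os α B) :=
    (hj.trl loc_Cl _ hmem2).1 hcl
  have hα0 : 0 < α := hlim.bot_lt
  have hsB : s.toZFSet ∈ j (os α B) := by
    refine hcl' _ ?_ ⟨(0 : Ordinal.{u}).toZFSet, ?_, rfl⟩ ?_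
    · rw [hj.ord hαη]
      exact toZFSet_mem_toZFSet_iff.2 hs1
    · refine toZFSet_mem_toZFSet_iff.2 ?_
      have := hs2 0 hα0
      rwa [hj.Jo_zero] at this
    · intro y hy
      obtain ⟨y, hy', rfl⟩ := mem_toZFSet_iff.1 hy
      obtain ⟨ξ, h1, h2⟩ := hs3 y hy'
      obtain ⟨β, h3, h4, h5⟩ := hB.unb ξ h1
      refine ⟨(Jo j β).toZFSet, toZFSet_mem_toZFSet_iff.2 (hs2 β h3),
        toZFSet_mem_toZFSet_iff.2 (h2.trans (J_lt hj h4 (h3.trans hαη))), ?_⟩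
      rw [← hj.ord (h3.trans hαη), ← hj.mem (Gd.ord.2 (h3.trans hαη)) (hosη B)]
      exact ord_mem_os.2 ⟨h3, h5⟩
  -- the hypothesis of `Q` at `α*`
  obtain ⟨_, h1, hun, hsub⟩ := hQ' _ hsB ⟨ρ.toZFSet, toZFSet_mem_toZFSet_iff.2 hρ1, by
    refine ⟨γ.toZFSet, toZFSet_mem_toZFSet_iff.2 (hs.γη.trans hj.Jo_crit),
      rs γ (Jo j γ) fun a b => b = Jo j a, ?_, ?_⟩
    · intro z hz
      obtain ⟨a, ha, b, hb, -, rfl⟩ := mem_rs.1 hz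
      exact ZFSet.pair_mem_prod.2 ⟨toZFSet_mem_toZFSet_iff.2
        (ha.trans (hs.γη.trans hj.Jo_crit)), toZFSet_mem_toZFSet_iff.2 hb⟩
    · intro i hi hpb
      obtain ⟨i, hi', rfl⟩ := mem_toZFSet_iff.1 hi
      obtain ⟨i0, h1, rfl⟩ := (hXF' i hi').1 (pb_iff.1 hpb)
      refine ⟨i0.toZFSet, toZFSet_mem_toZFSet_iff.2 h1, pair_mem_rs.2 ⟨h1, hi', rfl⟩, ?_⟩
      intro i' hi' h2
      obtain ⟨i', h3, rfl⟩ := mem_toZFSet_iff.1 hi'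
      rw [(pair_mem_rs.1 h2).2.2], by
    intro z hz
    obtain ⟨z, hz', rfl⟩ := mem_toZFSet_iff.1 hz
    obtain ⟨ξ, h1, h2⟩ := hs3 z hz'
    refine ⟨(Jo j ξ).toZFSet, toZFSet_mem_toZFSet_iff.2 (hs2 ξ h1),
      toZFSet_mem_toZFSet_iff.2 h2, pb_iff.2 ?_⟩
    have h3 : ξ < γ := h1.trans_le hαγ
    exact (hXF' _ (J_lt hj h3 hs.γη)).2 ⟨ξ, h3, rfl⟩⟩
  obtain ⟨r', hr', rfl⟩ := mem_toZFSet_iff.1 h1
  refine ⟨S, {i | i < s ∧ Pos M.ord r' (fib (j f) i)}, hSα, ?_, ?_, ?_, ?_⟩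
  · have h2 := hDA 0 1 (fun a w => ZFSet.pair a.toZFSet (w 2).toZFSet ∈ j f)
      (DO.s2 (X := fun a b => ZFSet.pair a.toZFSet b.toZFSet ∈ j f) (OD.dr hs.odj) 0 3)
    have h3 := DO.sub (R := fun m w => Pos m (w 0)
      {a | ZFSet.pair a.toZFSet (w 1).toZFSet ∈ j f}) M.ord h2
    have h4 := DO.sub (R := fun r w => Pos M.ord r
      {a | ZFSet.pair a.toZFSet (w 0).toZFSet ∈ j f}) r' h3
    exact (DO.ltc 0 s).and h4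
  · refine cov_iff.2 ?_
    rwa [Cardinal.card_ord]
  · intro ξ hξ
    obtain ⟨_, h2, h3, h4⟩ := hun _ (toZFSet_mem_toZFSet_iff.2 (hs2 ξ hξ))
    obtain ⟨i, hi, rfl⟩ := mem_toZFSet_iff.1 h2
    obtain ⟨ζ, h5, h6⟩ := hs3 i hi
    have h7 := toZFSet_mem_toZFSet_iff.1 h3
    refine ⟨ζ, h5, ?_, i, ⟨hi, pb_iff.1 h4⟩, h7.le, h6⟩
    exact (hj.lt_iff (hξ.trans hαη) (h5.trans hαη)).1 (h7.trans h6)
  · rintro ξ hξ ζ hζ ⟨x, ⟨hx1, hx2⟩, hx3, hx4⟩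
    have hmem3 : ∀ z ∈ [os α S, ξ.toZFSet, ζ.toZFSet], z ∈ V_ η := by
      simp only [List.mem_cons, List.not_mem_nil, or_false, forall_eq_or_imp, forall_eq]
      exact ⟨hosη S, Gd.ord.2 (hξ.trans hαη), Gd.ord.2 (hζ.trans hαη)⟩
    have h2 : ∃ y ∈ os α S, ¬ y ∈ ξ.toZFSet ∧ y ∈ ζ.toZFSet := by
      refine (hj.trl loc_In _ hmem3).2 ?_
      show ∃ y ∈ j (os α S), ¬ y ∈ j ξ.toZFSet ∧ y ∈ j ζ.toZFSet
      refine ⟨x.toZFSet, hsub _ (toZFSet_mem_toZFSet_iff.2 hx1) (pb_iff.2 hx2), ?_, ?_⟩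
      · rw [hj.ord (hξ.trans hαη), toZFSet_mem_toZFSet_iff]
        exact not_lt.2 hx3
      · rw [hj.ord (hζ.trans hαη), toZFSet_mem_toZFSet_iff]
        exact hx4
    obtain ⟨_, h3, h4, h5⟩ := h2
    obtain ⟨y, -, h6, rfl⟩ := mem_os.1 h3
    rw [toZFSet_mem_toZFSet_iff] at h4 h5
    exact ⟨y, h6, not_lt.1 h4, h5⟩

end Pool.Agent.H87.HD.XI
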